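import Pool.Agent.Helper63.Pow.Power

/-!
Finite powers and the selection principle `S_1(D_Ω, D_Ω)`.
-/

namespace Pool.Agent.Results.MP_9098dd_gt.PowersOne

open Set Helper63.Pow

universe u

/-- (1) `S_1(D_Ω, D_Ω)` is preserved by finite powers for all topological spaces if and only if
there is no free Suslin tree. (2) The same holds for Tychonoff spaces. (3) For a single space `X`
satisfying `S_1(D_Ω, D_Ω)` all finite powers satisfy it if and only if `X²` is ccc. -/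
theorem result :
    ((∀ (X : Type u) [TopologicalSpace X], S1 (DOmega X) (DOmega X) →
        ∀ k : ℕ, 1 ≤ k → S1 (DOmega (Fin k → X)) (DOmega (Fin k → X))) ↔
      ¬ ∃ (T : Type u) (_ : PartialOrder T), IsFreeSuslinTree T) ∧
    ((∀ (X : Type u) [TopologicalSpace X] [T35Space X], S1 (DOmega X) (DOmega X) →
        ∀ k : ℕ, 1 ≤ k → S1 (DOmega (Fin k → X)) (DOmega (Fin k → X))) ↔
      ¬ ∃ (T : Type u) (_ : PartialOrder T), IsFreeSuslinTree T) ∧
    ∀ (X : Type u) [TopologicalSpace X], S1 (DOmega X) (DOmega X) →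
      ((∀ k : ℕ, 1 ≤ k → S1 (DOmega (Fin k → X)) (DOmega (Fin k → X))) ↔ Ccc (Fin 2 → X)) := by
  have hpos : (¬ ∃ (T : Type u) (_ : PartialOrder T), IsFreeSuslinTree T) →
      ∀ (X : Type u) [TopologicalSpace X], S1 (DOmega X) (DOmega X) →
        ∀ k : ℕ, S1 (DOmega (Fin k → X)) (DOmega (Fin k → X)) :=
    fun hno X _ hX k => pos_S1 hX (not_bad hX.toSfin hno) k
  refine ⟨⟨fun h hT => ?_, fun hno X _ hX k _ => hpos hno X hX k⟩,
    ⟨fun h hT => ?_, fun hno X _ _ hX k _ => hpos hno X hX k⟩, fun X _ hX => ⟨fun h => ?_, ?_⟩⟩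
  · obtain ⟨X, _, _, h1, h2⟩ := counter hT
    exact h2 (h X h1 2 one_le_two).toSfin
  · obtain ⟨X, _, _, h1, h2⟩ := counter hT
    exact h2 (h X h1 2 one_le_two).toSfin
  · intro 𝒞 h𝒞 hd
    have h1 := ccc_of_Sfin (h 2 one_le_two).toSfin (Subtype.val ⁻¹' 𝒞) fun U hU V hV hne =>
      hd U hU V hV fun he => hne (Subtype.ext he)
    refine (h1.image Subtype.val).mono fun U hU => ?_
    exact ⟨⟨U, h𝒞 U hU⟩, hU, rfl⟩
  · intro hccc k _
    refine pos_S1 hX (not_bad' hX.toSfin fun 𝒞 h𝒞 => ?_) k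
    refine countable_of_injective_of_countable_image (f := Subtype.val)
      Subtype.val_injective.injOn (hccc _ ?_ ?_)
    · rintro _ ⟨U, hU, rfl⟩; exact U.2
    · rintro _ ⟨U, hU, rfl⟩ _ ⟨V, hV, rfl⟩ hne
      exact h𝒞 U hU V hV fun he => hne (by rw [he])

end Pool.Agent.Results.MP_9098dd_gt.PowersOne
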